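import Mathlib

set_option autoImplicit false

namespace Pool.Agent.Results.MP_c1403d_pr.Proof

open Finsupp Polynomial Finset

/-- `ℚ[z, b, a, a⁻¹]` by its monomial basis `z ^ j * b ^ k * a ^ l`. -/
abbrev A := (ℕ × ℕ × ℤ) →₀ ℚ

noncomputable def mon (j k : ℕ) (l : ℤ) : A := single (j, k, l) 1

/-- The derivation with `D z = 1`, `D b = z a`, `D a = b`, on monomials. -/
noncomputable def D : A →ₗ[ℚ] A := linearCombination ℚ fun m =>
  (m.1 : ℚ) • mon (m.1 - 1) m.2.1 m.2.2 + (m.2.1 : ℚ) • mon (m.1 + 1) (m.2.1 - 1) (m.2.2 + 1) +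
    (m.2.2 : ℚ) • mon m.1 (m.2.1 + 1) (m.2.2 - 1)

/-- The reduction of `[j, k, l]`, in the basis of symbols `[j, 0, l]`. -/
noncomputable def R : ℕ → ℕ → ℕ → (ℕ × ℕ →₀ ℚ)
  | j, 0, l => single (j, l) 1
  | j, 1, l => (j / (l - 1) : ℚ) • R (j - 1) 0 (l - 1)
  | j, k + 2, l => (j / (l - 1) : ℚ) • R (j - 1) (k + 1) (l - 1) +
      ((k + 1) / (l - 1) : ℚ) • R (j + 1) k (l - 2)

/-- The coefficient of `[i, 0, 2]` in the reduction of `a⁻¹ * D ^ n a⁻¹`. -/
noncomputable def b (n i : ℕ) : ℚ :=
  ((D ^ n) (mon 0 0 (-1))).sum fun m c => c * R m.1 m.2.1 (1 - m.2.2).toNat (i, 2)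

def el (k : ℕ) : ℚ := if Even k then 1 / (k + 1) else 0

theorem hR (i k : ℕ) : ∀ j, 2 * j + k ≤ 2 * i →
    R j k (k + 2) (i, 2) = if 2 * j + k = 2 * i then el k else 0 := by
  induction k using Nat.twoStepInduction with
  | zero => intro j _; simp [R, single_apply, el]
  | one =>
    intro j h
    rw [if_neg (by omega), R, R, Finsupp.smul_apply, single_eq_of_ne (by simp; omega), smul_zero]
  | more k h1 h2 =>
    intro j h
    have h3 := h1 (j + 1) (by omega)
    have h4 := h2 (j - 1) (by omega)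
    rw [if_neg (by omega)] at h4
    simp only [R, Finsupp.add_apply, Finsupp.smul_apply, show k + 2 + 2 - 1 = k + 1 + 2 from rfl,
      Nat.add_sub_cancel, h3, h4, smul_zero, zero_add, el, Nat.even_add, even_two, iff_true,
      show 2 * (j + 1) + k = 2 * j + (k + 2) by ring]
    split_ifs <;> simp
    rw [show (k : ℚ) + 2 + 2 - 1 = k + 2 + 1 by ring]
    field_simp

noncomputable def L : ℚ[X] →ₗ[ℚ] ℚ := Polynomial.lsum fun k => el k • LinearMap.id

theorem LX (k : ℕ) : L (X ^ k) = el k := by simp [L, X_pow_eq_monomial]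

noncomputable def tau (n : ℕ) : A →ₗ[ℚ] ℚ[X] :=
  linearCombination ℚ fun m => if 2 * m.1 + m.2.1 = n then X ^ m.2.1 else 0

noncomputable def S (n : ℕ) : Submodule ℚ A := .span ℚ {f | ∃ j k, 2 * j + k ≤ n ∧ f = mon j k (-(k + 1))}

theorem step {n : ℕ} {f : A} (hf : f ∈ S n) : D f ∈ S (n + 1) ∧
    tau (n + 1) (D f) = (1 - X ^ 2) * derivative (tau n f) - X * tau n f := by
  induction hf using Submodule.span_induction with
  | zero => simp
  | add x y _ _ h1 h2 => exact ⟨by simpa using add_mem h1.1 h2.1, by simp [h1.2, h2.2]; ring⟩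
  | smul a x _ h =>
    exact ⟨by simpa using Submodule.smul_mem _ a h.1, by simp [h.2, smul_sub, smul_eq_C_mul]; ring⟩
  | mem x h =>
    obtain ⟨j, k, h, rfl⟩ := h
    have m : ∀ j k l, 2 * j + k ≤ n + 1 → l = -(k + 1 : ℤ) → mon j k l ∈ S (n + 1) :=
      fun j k l h1 h2 => Submodule.subset_span ⟨j, k, h1, by rw [h2]⟩
    simp only [D, tau, mon, linearCombination_single, one_smul, map_add, map_smul]
    refine ⟨add_mem (add_mem (Submodule.smul_mem _ _ (m _ _ _ (by omega) rfl)) ?_)
      (Submodule.smul_mem _ _ (m _ _ _ (by omega) (by push_cast; ring))), ?_⟩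
    · cases k
      · simp
      · exact Submodule.smul_mem _ _ (m _ _ _ (by omega) (by push_cast; ring))
    rw [if_neg (by omega)]
    cases k with
    | zero => simp; split_ifs <;> simp
    | succ k =>
      by_cases h1 : 2 * j + (k + 1) = n
      · rw [if_pos (by omega), if_pos (by omega), if_pos h1]
        simp [smul_eq_C_mul]
        ring
      · rw [if_neg (by omega), if_neg (by omega), if_neg h1]
        simp

noncomputable def q (n : ℕ) : ℚ[X] := tau n ((D ^ n) (mon 0 0 (-1)))

theorem memS (n : ℕ) : (D ^ n) (mon 0 0 (-1)) ∈ S n := by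
  induction n with
  | zero => exact Submodule.subset_span ⟨0, 0, le_rfl, rfl⟩
  | succ n ih => rw [pow_succ']; exact (step ih).1

theorem q1 (n : ℕ) : q (n + 1) = (1 - X ^ 2) * derivative (q n) - X * q n := by
  rw [q, pow_succ']; exact (step (memS n)).2

theorem bq (i : ℕ) : b (2 * i) i = L (q (2 * i)) := by
  have : ∀ f ∈ S (2 * i), linearCombination ℚ (fun m : ℕ × ℕ × ℤ =>
      R m.1 m.2.1 (1 - m.2.2).toNat (i, 2)) f = L (tau (2 * i) f) := fun f hf => by
    induction hf using Submodule.span_induction with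
    | zero => simp
    | add x y _ _ h1 h2 => simp [h1, h2]
    | smul a x _ h => simp [h]
    | mem x h =>
      obtain ⟨j, k, h, rfl⟩ := h
      simp only [tau, mon, linearCombination_single, one_smul]
      rw [show (1 - -(k + 1 : ℤ)).toNat = k + 2 by omega, hR _ _ _ h]
      split_ifs <;> simp [LX]
  exact this _ (memS _)

theorem Lq (n : ℕ) : L (q (n + 1)) = L (q n * X) := by
  rw [q1]
  induction q n using Polynomial.induction_on' with
  | add p r h1 h2 => simp only [map_add, map_sub, mul_add, add_mul] at h1 h2 ⊢; linarith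
  | monomial k a =>
    rw [← C_mul_X_pow_eq_monomial]
    cases k with
    | zero => simp [← smul_eq_C_mul, show L X = 0 by simpa [el] using LX 1]
    | succ k =>
      rw [show (1 - X ^ 2) * derivative (C a * X ^ (k + 1)) - X * (C a * X ^ (k + 1)) =
        C (a * (k + 1)) * X ^ k - C (a * (k + 2)) * X ^ (k + 2) by simp [map_ofNat]; ring,
        mul_assoc, ← pow_succ]
      simp only [← smul_eq_C_mul, map_sub, map_smul, LX, el, Nat.even_add_one, not_not]
      split_ifs <;> simp
      field_simp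
      ring

noncomputable def e (j : ℕ) : ℚ[X] := if Even j then 1 else X

theorem conv (n : ℕ) : ∑ p ∈ antidiagonal n, (n.choose p.1 : ℚ[X]) * (q p.1 * e p.2) =
    if n = 0 then 1 else 0 := by
  induction n with
  | zero => simp [q, tau, mon, e]
  | succ n ih =>
    have h := congrArg (fun f => (1 - X ^ 2) * derivative f) ih
    rw [show (1 - X ^ 2) * derivative (if n = 0 then (1 : ℚ[X]) else 0) = 0 by
      split_ifs <;> simp] at h
    rw [sum_antidiagonal_choose_succ_mul fun i j => q i * e j, if_neg n.succ_ne_zero, ← h,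
      ← sum_add_distrib, derivative_sum, Finset.mul_sum]
    refine sum_congr rfl fun p hp => ?_
    rw [← Nat.choose_symm_of_eq_add (mem_antidiagonal.1 hp).symm, q1]
    by_cases h1 : Even p.2 <;> simp [e, h1, Nat.even_add_one] <;> ring

open PowerSeries in
theorem result (m : ℕ) : b (2 * m) m = (2 - 2 ^ (2 * m)) * _root_.bernoulli (2 * m) := by
  let o : ℕ → ℚ := fun j => if Even j then 0 else 1
  have h1 : ∀ n, ∑ p ∈ antidiagonal n, (n.choose p.1 : ℚ) * (L (q p.1) * o p.2) =
      if n = 1 then 1 else 0 := fun n => by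
    cases n with
    | zero => simp [o]
    | succ n =>
      have h := congrArg L (conv n)
      rw [show L (if n = 0 then 1 else 0) = if n + 1 = 1 then 1 else 0 by
        have := LX 0
        by_cases h : n = 0 <;> simp_all [el], map_sum] at h
      rw [sum_antidiagonal_choose_succ_mul fun i j => L (q i) * o j, ← h, ← sum_add_distrib]
      refine sum_congr rfl fun p hp => ?_
      rw [← Nat.choose_symm_of_eq_add (mem_antidiagonal.1 hp).symm, Lq,
        ← nsmul_eq_mul (n.choose p.1) (q p.1 * e p.2), map_nsmul]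
      by_cases h1 : Even p.2 <;> simp [e, o, h1, Nat.even_add_one]
  have h2 : mk (fun n => L (q n) / n.factorial) * (exp ℚ - rescale (-1) (exp ℚ)) =
      2 * PowerSeries.X := by
    ext n
    rw [PowerSeries.coeff_mul, two_mul, map_add, PowerSeries.coeff_X, ← h1, ← two_mul]
    trans 2 * (∑ p ∈ antidiagonal n, (n.choose p.1 : ℚ) * (L (q p.1) * o p.2)) / n.factorial
    · rw [Finset.mul_sum, sum_div]
      refine sum_congr rfl fun p hp => ?_
      rw [← mem_antidiagonal.1 hp, Nat.cast_choose _ (Nat.le_add_right _ _), Nat.add_sub_cancel_left]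
      rcases p.2.even_or_odd with h | h
      · simp [o, h, h.neg_one_pow]
      · simp [o, Nat.not_even_iff_odd.2 h, h.neg_one_pow]
        field_simp
        norm_num
    · rw [h1]; split_ifs with h <;> simp [h]
  have h3 := bernoulliPowerSeries_mul_exp_sub_one ℚ
  have h4 := congrArg (rescale 2) h3
  have h5 : rescale 2 (exp ℚ) = exp ℚ * exp ℚ := by
    simpa [one_add_one_eq_two] using (exp_mul_exp_eq_exp_add (1 : ℚ) 1).symm
  have h6 : exp ℚ * rescale (-1) (exp ℚ) = 1 := by simpa using exp_mul_exp_eq_exp_add (1 : ℚ) (-1)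
  rw [map_mul, map_sub, map_one, h5, rescale_X, map_ofNat] at h4
  have h7 : mk (fun n => L (q n) / n.factorial) =
      2 * bernoulliPowerSeries ℚ - rescale 2 (bernoulliPowerSeries ℚ) := by
    refine mul_right_cancel₀ (b := exp ℚ * exp ℚ - 1) (fun h => ?_) ?_
    · rw [h, mul_zero] at h4
      have := congrArg (PowerSeries.coeff 1) h4
      norm_num [two_mul] at this
    · linear_combination exp ℚ * h2 - 2 * (exp ℚ + 1) * h3 + h4 +
        mk (fun n => L (q n) / n.factorial) * h6
  have h8 := congrArg (PowerSeries.coeff (2 * m)) h7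
  rw [two_mul (bernoulliPowerSeries ℚ)] at h8
  simp [bernoulliPowerSeries] at h8
  field_simp at h8
  rw [bq, h8]
  ring

end Pool.Agent.Results.MP_c1403d_pr.Proof
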